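import Pool.Agent.H331G.RB

set_option autoImplicit false

namespace Pool.Agent.Results.MP_3cbb73_an.LowerRieszConstants

open Real Pool.Agent.Results.MP_3cbb73_an.GreedyOrder

section Space

variable {H : Type*} [NormedAddCommGroup H] [InnerProductSpace ℝ H]

open Classical in
/-- every realization of the Pure Greedy Algorithm over a Riesz basis gives the discrete dynamics
of `GreedyOrder` (the argument is the one in `GreedyOrder.upper`) -/
theorem exists_dyn {C₁ C₂ : ℝ} {B : Set H} (hB : IsRB C₁ C₂ B) (hC : 0 < C₁)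
    {f : H} (hf : f ∈ A1 B) {φ r : ℕ → H} (hr : IsPGA B f φ r) :
    ∃ (c : ℕ → H → ℝ) (a : ℕ → ℝ), Dyn (1 / C₁ ^ 2) c φ a (fun m => ‖r m‖ ^ 2) := by
  obtain ⟨c, hc1, hc2, hc3⟩ := exists_coeff hB hC hf
  obtain ⟨hr0, hrs⟩ := hr
  have hφB : ∀ m, φ m ∈ B := fun m => (hrs m).1
  have hnorm : ∀ m, ‖φ m‖ = 1 := fun m => hB.1.1 _ (hφB m)
  have hgreedy : ∀ m, ∀ g ∈ B, |inner ℝ (r m) g| ≤ |inner ℝ (r m) (φ m)| := by
    intro m g hg
    rw [(hrs m).2.1]
    apply le_csSup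
    · refine ⟨‖r m‖, ?_⟩
      rintro x ⟨g', hg', rfl⟩
      have := abs_real_inner_le_norm (r m) g'
      rwa [hB.1.1 g' hg', mul_one] at this
    · exact ⟨g, hg, rfl⟩
  let a : ℕ → ℝ := fun m => inner ℝ (r m) (φ m)
  let p : ℕ → H → ℝ := fun m g => ∑ k ∈ (Finset.range m).filter (fun k => φ k = g), a k
  have hTB : ∀ m, ∀ g ∈ T φ m, g ∈ B := by
    intro m g hg
    unfold T at hg
    rw [Finset.mem_image] at hg
    obtain ⟨k, _, rfl⟩ := hg
    exact hφB k
  have hsum : ∀ m, ∑ g ∈ T φ m, p m g • g = ∑ k ∈ Finset.range m, a k • φ k := by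
    intro m
    unfold T
    rw [← Finset.sum_fiberwise_of_maps_to (s := Finset.range m)
      (t := (Finset.range m).image φ) (g := φ) (fun k hk => Finset.mem_image_of_mem _ hk)]
    apply Finset.sum_congr rfl
    intro g _
    simp only [p]
    rw [Finset.sum_smul]
    apply Finset.sum_congr rfl
    intro k hk
    rw [Finset.mem_filter] at hk
    rw [hk.2]
  have hres : ∀ m, r m = f - ∑ g ∈ T φ m, p m g • g := by
    intro m
    rw [hsum]
    induction m with
    | zero => simp [hr0]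
    | succ m ih =>
      rw [Finset.sum_range_succ, (hrs m).2.2]
      nth_rewrite 1 [ih]
      abel
  refine ⟨fun m g => c g - p m g, a, ?_⟩
  have hp0 : ∀ g, p 0 g = 0 := fun g => by simp [p]
  refine ⟨?_, ?_, ?_, ?_, ?_⟩
  · intro m g
    simp only [p]
    rw [Finset.range_add_one, Finset.filter_insert]
    by_cases hg : g = φ m
    · rw [if_pos hg, if_pos hg.symm, Finset.sum_insert (by simp)]; ring
    · rw [if_neg hg, if_neg (fun h => hg h.symm)]
  · intro m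
    simp only [hp0, sub_zero]
    exact hc1 _ (hTB m)
  · intro m
    rw [(hrs m).2.2]
    have h1 : inner ℝ (r m) (φ m) = a m := rfl
    rw [h1, norm_sub_sq_real, inner_smul_right, h1, norm_smul, hnorm m]
    rw [mul_one, Real.norm_eq_abs, sq_abs]; ring
  · intro m
    have h1 := hc3 (T φ m) (p m) (r m) (|a m|) (hTB m) (abs_nonneg _) (hgreedy m)
    rw [← hres m, real_inner_self_eq_norm_sq] at h1
    unfold A U
    simp only [hp0, sub_zero]
    linarith [mul_comm (|a m|) (∑ g ∈ T φ m, |c g - p m g| + (1 - ∑ g ∈ T φ m, |c g|))]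
  · intro m
    have h1 := hc2 (T φ m) (p m) (hTB m)
    rw [← hres m] at h1
    rw [div_mul_eq_mul_div, one_mul, le_div_iff₀ (by positivity)]
    linarith [mul_comm (C₁ ^ 2) (∑ g ∈ T φ m, (c g - p m g) ^ 2)]

end Space

/-- Below the threshold of `GreedyOrder`: if `0 < r < 1/2` and
`1/C₁² ≤ 3e/2 - 1/4 - (e + 1/2) r`, then `γ(m, RB(C₁,C₂)) ≤ C m^(-r)` with `C` depending on
`C₁` and `r` only. -/
theorem result.{u} (C₁ r : ℝ) (h1 : 0 < C₁) (hr0 : 0 < r) (hr1 : r < 1 / 2)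
    (h3 : 1 / C₁ ^ 2 ≤ 3 * exp 1 / 2 - 1 / 4 - (exp 1 + 1 / 2) * r) :
    ∃ C : ℝ, 0 < C ∧ ∀ C₂ : ℝ,
      ∀ (H : Type u) [NormedAddCommGroup H] [InnerProductSpace ℝ H],
        ∀ m : ℕ, 1 ≤ m →
          BddAbove (errs H C₁ C₂ m) ∧ gam H C₁ C₂ m ≤ C * (m : ℝ) ^ (-r) := by
  classical
  have hE := exp_pos 1
  set μ : ℝ := (1 - 2 * r) / (1 + 2 * r) with hμ
  set θ : ℝ := 1 / C₁ ^ 2 with hθ
  have hp : 0 < 1 + 2 * r := by linarith
  have hμ0 : 0 < μ := div_pos (by linarith) hp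
  have hμ1 : μ < 1 := by
    rw [hμ, div_lt_one hp]; linarith
  have hc : 0 < 1 - θ / (2 * exp 1) := by
    have h4 : θ / (2 * exp 1) < 1 := by
      rw [div_lt_one (by positivity)]
      have : 0 < (exp 1 + 1 / 2) * r := by positivity
      linarith
    linarith
  have hν : kap + θ / (2 * exp 1) - 1 ≤ μ * (1 - θ / (2 * exp 1)) := by
    have h5 : θ / (2 * exp 1) ≤
        (3 * exp 1 / 2 - 1 / 4 - (exp 1 + 1 / 2) * r) / (2 * exp 1) := by gcongr
    have h6 : (3 * exp 1 / 2 - 1 / 4 - (exp 1 + 1 / 2) * r) / (2 * exp 1) =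
        1 - kap * (1 + 2 * r) / 2 := by
      unfold kap
      field_simp
      ring
    rw [h6] at h5
    have h7 : (1 + μ) * (1 + 2 * r) = 2 := by
      rw [hμ]; field_simp; ring
    have h8 : 0 < 1 + μ := by linarith
    have h9 : (1 + μ) * (θ / (2 * exp 1)) ≤ (1 + μ) * (1 - kap * (1 + 2 * r) / 2) := by
      gcongr
    have h10 : (1 + μ) * (1 - kap * (1 + 2 * r) / 2) = 1 + μ - kap := by
      have : (1 + μ) * (1 - kap * (1 + 2 * r) / 2) =
          1 + μ - kap * ((1 + μ) * (1 + 2 * r)) / 2 := by ring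
      rw [this, h7]; ring
    rw [h10] at h9
    linarith
  have hexp : (1 - μ) / (1 + μ) = 2 * r := by
    rw [hμ]; field_simp; ring
  have hkap := kap_pos
  set K : ℝ := (2 * kap + 1 / μ) / (1 - θ / (2 * exp 1)) with hK
  have hK0 : 0 < K := by positivity
  have hs0 : 0 < (1 + μ) / (1 - μ) := by
    have : 0 < 1 - μ := by linarith
    positivity
  set L : ℝ := K * (K / ((1 + μ) / (1 - μ))) ^ (2 * r) with hL
  have hL0 : 0 < L := by positivity
  refine ⟨√L, Real.sqrt_pos.2 hL0, ?_⟩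
  intro C₂ H _ _ m hm
  have hm0 : (0 : ℝ) < m := by exact_mod_cast hm
  have hub : ∀ x ∈ errs H C₁ C₂ m, x ≤ √L * (m : ℝ) ^ (-r) := by
    rintro x ⟨B, f, φ, ρ, hB, hf, hρ, rfl⟩
    obtain ⟨c, a, hdyn⟩ := exists_dyn hB h1 hf hρ
    have hen := H331G.RB.energy hdyn hμ0 hμ1 hc hν (fun m => sq_nonneg _) m hm
    rw [hexp] at hen
    have h11 : ‖ρ m‖ ^ 2 ≤ (√L * (m : ℝ) ^ (-r)) ^ 2 := by
      have h12 : (√L * (m : ℝ) ^ (-r)) ^ 2 = L * (m : ℝ) ^ (-(2 * r)) := by
        rw [mul_pow, Real.sq_sqrt hL0.le, ← Real.rpow_natCast ((m : ℝ) ^ (-r)) 2,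
          ← Real.rpow_mul hm0.le]
        congr 2
        push_cast
        ring
      rw [h12, hL]
      calc ‖ρ m‖ ^ 2 ≤ _ := hen
        _ = _ := by ring
    exact (pow_le_pow_iff_left₀ (norm_nonneg _) (by positivity) two_ne_zero).1 h11
  have hbdd : BddAbove (errs H C₁ C₂ m) := ⟨_, fun x hx => hub x hx⟩
  refine ⟨hbdd, ?_⟩
  unfold gam
  rcases (errs H C₁ C₂ m).eq_empty_or_nonempty with h0 | h0
  · rw [h0, Real.sSup_empty]
    positivity
  · exact csSup_le h0 hub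

end Pool.Agent.Results.MP_3cbb73_an.LowerRieszConstants
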